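import Pool.Agent.R563.SPca.Main

set_option autoImplicit false

/-!
# MP_05f51d_lc, Q1: low-degree detection in sparse PCA above the spectral threshold

If `λ = β / √γ > 1` then for every degree bound `D n → ∞` (for instance `D n = ⌈log n⌉`, so
`O(log n)`) there are polynomials of degree at most `D n` which strongly separate the planted and
the null law. They count the cycles of length `2 ℓ`, with `ℓ = ℓ n → ∞` slowly, in the complete
bipartite graph whose edges are weighted by the entries of the observation.
-/

namespace Pool.Agent.Results.MP_05f51d_lc.DetectAboveBbp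

open Filter Topology Pool.Agent.R563.SPca

/-! `plantedLaw n N k β` and `nullLaw n N` are the two laws of the `n × N` observation, and
`StronglySeparates` is strong separation. -/

theorem result (β γ : ℝ) (hβ : 0 < β) (hγ : 0 < γ) (hl : 1 < β / √γ) (N : ℕ → ℕ)
    (hN : Tendsto (fun n : ℕ => (n : ℝ) / N n) atTop (𝓝 γ)) (k : ℕ → ℝ)
    (hk : Tendsto k atTop atTop) (hkn : Tendsto (fun n : ℕ => k n / n) atTop (𝓝 0))
    (D : ℕ → ℕ) (hD : Tendsto D atTop atTop) :
    ∃ f : (n : ℕ) → MvPolynomial (Fin n × Fin (N n)) ℝ,
      (∀ n, (f n).totalDegree ≤ D n) ∧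
      StronglySeparates N (fun n => plantedLaw n (N n) (k n) β) (fun n => nullLaw n (N n)) f :=
  main hβ hγ hl hN hk hkn hD

end Pool.Agent.Results.MP_05f51d_lc.DetectAboveBbp
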